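import Pool.Agent.Lib.P325y.Av

/-!
The polynomial `1 - (1 - x ^ τ) ^ R` of a symmetric matrix with eigenvalues in `[0, 1]`.
-/

open scoped BigOperators Matrix
open Finset

namespace Pool.Agent.Lib.P325y

variable {κ : Type*} [Fintype κ] [DecidableEq κ]

/-- the spectral theorem for a symmetric matrix `0 ≤ A ≤ 1` -/
theorem exists_diag {A : Matrix κ κ ℝ} (hA : Aᵀ = A) (h0 : ∀ f, 0 ≤ f ⬝ᵥ (A *ᵥ f))
    (h1 : ∀ f, f ⬝ᵥ (A *ᵥ f) ≤ f ⬝ᵥ f) :
    ∃ (V : Matrix κ κ ℝ) (l : κ → ℝ), V * Vᵀ = 1 ∧ Vᵀ * V = 1 ∧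
      A = V * Matrix.diagonal l * Vᵀ ∧ ∀ i, 0 ≤ l i ∧ l i ≤ 1 := by
  have hH : A.IsHermitian := by
    rw [Matrix.IsHermitian, Matrix.conjTranspose_eq_transpose_of_trivial, hA]
  set V : Matrix κ κ ℝ := (hH.eigenvectorUnitary : Matrix κ κ ℝ) with hV
  have hs : star V = Vᵀ := by
    rw [Matrix.star_eq_conjTranspose, Matrix.conjTranspose_eq_transpose_of_trivial]
  have hV1 : V * Vᵀ = 1 := by
    rw [← hs]
    exact Unitary.mul_star_self_of_mem hH.eigenvectorUnitary.2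
  have hV2 : Vᵀ * V = 1 := by
    rw [← hs]
    exact Unitary.star_mul_self_of_mem hH.eigenvectorUnitary.2
  have hA1 : A = V * Matrix.diagonal hH.eigenvalues * Vᵀ := by
    have h := hH.spectral_theorem
    rw [Unitary.conjStarAlgAut_apply] at h
    rw [← hs]
    exact h
  refine ⟨V, hH.eigenvalues, hV1, hV2, hA1, fun i => ?_⟩
  -- evaluate the form at the column `i`
  set v : κ → ℝ := V *ᵥ (Pi.single i 1) with hv
  have e1 : Vᵀ *ᵥ v = Pi.single i 1 := by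
    rw [hv, Matrix.mulVec_mulVec, hV2, Matrix.one_mulVec]
  have e2 : v ⬝ᵥ (A *ᵥ v) = hH.eigenvalues i := by
    have e0 : A *ᵥ v = V *ᵥ (Matrix.diagonal hH.eigenvalues *ᵥ (Vᵀ *ᵥ v)) := by
      conv_lhs => rw [hA1]
      rw [← Matrix.mulVec_mulVec, ← Matrix.mulVec_mulVec]
    rw [e0, e1, Matrix.dotProduct_mulVec, ← Matrix.mulVec_transpose, e1]
    simp [Matrix.mulVec_diagonal]
  have e3 : v ⬝ᵥ v = 1 := by
    conv_lhs => rw [show v ⬝ᵥ v = v ⬝ᵥ (V *ᵥ (Pi.single i 1)) from rfl]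
    rw [Matrix.dotProduct_mulVec, ← Matrix.mulVec_transpose, e1]
    simp
  exact ⟨e2 ▸ h0 v, e2 ▸ e3 ▸ h1 v⟩

section diag

variable {V : Matrix κ κ ℝ} (h1 : V * Vᵀ = 1) (h2 : Vᵀ * V = 1)

/-- the matrix with the eigenvalues `q` -/
def dg (V : Matrix κ κ ℝ) (q : κ → ℝ) : Matrix κ κ ℝ := V * Matrix.diagonal q * Vᵀ

include h2 in
theorem dg_mul (q r : κ → ℝ) : dg V q * dg V r = dg V (q * r) := by
  rw [dg, dg, dg]
  calc V * Matrix.diagonal q * Vᵀ * (V * Matrix.diagonal r * Vᵀ)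
      = V * Matrix.diagonal q * (Vᵀ * V) * Matrix.diagonal r * Vᵀ := by noncomm_ring
    _ = V * (Matrix.diagonal q * Matrix.diagonal r) * Vᵀ := by rw [h2]; noncomm_ring
    _ = V * Matrix.diagonal (q * r) * Vᵀ := by rw [Matrix.diagonal_mul_diagonal]; rfl

include h1 in
theorem dg_one : dg V 1 = 1 := by
  rw [dg, show (1 : κ → ℝ) = fun _ => 1 from rfl, Matrix.diagonal_one, mul_one, h1]

theorem dg_sub (q r : κ → ℝ) : dg V q - dg V r = dg V (q - r) := by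
  rw [dg, dg, dg, ← Matrix.sub_mul, ← Matrix.mul_sub, Matrix.diagonal_sub]
  rfl

include h1 h2 in
theorem dg_pow (q : κ → ℝ) (n : ℕ) : dg V q ^ n = dg V (q ^ n) := by
  induction n with
  | zero => rw [pow_zero, pow_zero, dg_one h1]
  | succ n ih => rw [pow_succ, ih, dg_mul h2, pow_succ]

include h2 in
theorem dg_trace (q : κ → ℝ) : (dg V q).trace = ∑ i, q i := by
  rw [dg, Matrix.trace_mul_comm, ← mul_assoc, h2, one_mul, Matrix.trace_diagonal]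

theorem dg_form (q : κ → ℝ) (f : κ → ℝ) :
    f ⬝ᵥ (dg V q *ᵥ f) = ∑ i, q i * (Vᵀ *ᵥ f) i ^ 2 := by
  rw [dg, ← Matrix.mulVec_mulVec, ← Matrix.mulVec_mulVec, Matrix.dotProduct_mulVec,
    ← Matrix.mulVec_transpose, dotProduct]
  refine sum_congr rfl fun i _ => ?_
  rw [Matrix.mulVec_diagonal]
  ring

theorem dg_transpose (q : κ → ℝ) : (dg V q)ᵀ = dg V q := by
  rw [dg, Matrix.transpose_mul, Matrix.transpose_mul, Matrix.transpose_transpose,
    Matrix.diagonal_transpose, mul_assoc]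

include h1 in
theorem sum_sq_transpose (f : κ → ℝ) : ∑ i, (Vᵀ *ᵥ f) i ^ 2 = f ⬝ᵥ f := by
  have h := dg_form (V := V) 1 f
  rw [dg_one h1, Matrix.one_mulVec] at h
  rw [h]
  exact sum_congr rfl fun i _ => by simp

include h1 in
theorem dg_form_le {q : κ → ℝ} {c : ℝ} (hq : ∀ i, q i ≤ c) (f : κ → ℝ) :
    f ⬝ᵥ (dg V q *ᵥ f) ≤ c * (f ⬝ᵥ f) := by
  rw [dg_form, ← sum_sq_transpose h1, mul_sum]
  exact sum_le_sum fun i _ => mul_le_mul_of_nonneg_right (hq i) (sq_nonneg _)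

end diag

/-- the polynomial `1 - (1 - x ^ τ) ^ R` of a matrix -/
def pm (A : Matrix κ κ ℝ) (τ R : ℕ) : Matrix κ κ ℝ := 1 - (1 - A ^ τ) ^ R

section package

variable {A : Matrix κ κ ℝ} (hA : Aᵀ = A) (h0 : ∀ f, 0 ≤ f ⬝ᵥ (A *ᵥ f))
  (h1 : ∀ f, f ⬝ᵥ (A *ᵥ f) ≤ f ⬝ᵥ f)

include hA h0 h1

theorem pm_transpose (τ R : ℕ) : (pm A τ R)ᵀ = pm A τ R := by
  rw [pm, Matrix.transpose_sub, Matrix.transpose_one, Matrix.transpose_pow, Matrix.transpose_sub,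
    Matrix.transpose_one, Matrix.transpose_pow, hA]

theorem pm_form_le (τ R : ℕ) (f : κ → ℝ) :
    (pm A τ R *ᵥ f) ⬝ᵥ (pm A τ R *ᵥ f) ≤ R * (f ⬝ᵥ (A ^ τ *ᵥ f)) := by
  obtain ⟨V, l, hV1, hV2, hAV, hl⟩ := exists_diag hA h0 h1
  have e1 : A = dg V l := hAV
  have e2 : pm A τ R = dg V (1 - (1 - l ^ τ) ^ R) := by
    rw [pm, e1, dg_pow hV1 hV2]
    conv_lhs => rw [← dg_one hV1, dg_sub, dg_pow hV1 hV2, dg_sub]
  rw [dot_symm (pm_transpose hA h0 h1 τ R), Matrix.mulVec_mulVec, e2, dg_mul hV2, dg_form, e1,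
    dg_pow hV1 hV2, dg_form, mul_sum]
  refine sum_le_sum fun i _ => ?_
  rw [← mul_assoc]
  refine mul_le_mul_of_nonneg_right ?_ (sq_nonneg _)
  simp only [Pi.mul_apply, Pi.sub_apply, Pi.one_apply, Pi.pow_apply]
  have hx0 : 0 ≤ l i ^ τ := pow_nonneg (hl i).1 _
  have hx1 : l i ^ τ ≤ 1 := pow_le_one₀ (hl i).1 (hl i).2
  have h2 : 0 ≤ (1 - l i ^ τ) ^ R := pow_nonneg (by linarith) _
  have h3 : (1 - l i ^ τ) ^ R ≤ 1 := pow_le_one₀ (by linarith) (by linarith)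
  have h4 : 1 + (R : ℝ) * (-(l i ^ τ)) ≤ (1 + -(l i ^ τ)) ^ R :=
    one_add_mul_le_pow (by linarith) R
  rw [← sub_eq_add_neg 1 (l i ^ τ)] at h4
  nlinarith

theorem pm_contr (τ R : ℕ) (f : κ → ℝ) :
    (pm A τ R *ᵥ f) ⬝ᵥ (pm A τ R *ᵥ f) ≤ f ⬝ᵥ f := by
  obtain ⟨V, l, hV1, hV2, hAV, hl⟩ := exists_diag hA h0 h1
  have e1 : A = dg V l := hAV
  have e2 : pm A τ R = dg V (1 - (1 - l ^ τ) ^ R) := by
    rw [pm, e1, dg_pow hV1 hV2]
    conv_lhs => rw [← dg_one hV1, dg_sub, dg_pow hV1 hV2, dg_sub]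
  rw [dot_symm (pm_transpose hA h0 h1 τ R), Matrix.mulVec_mulVec, e2, dg_mul hV2]
  refine (dg_form_le hV1 (c := 1) (fun i => ?_) f).trans_eq (one_mul _)
  simp only [Pi.mul_apply, Pi.sub_apply, Pi.one_apply, Pi.pow_apply]
  have hx0 : 0 ≤ l i ^ τ := pow_nonneg (hl i).1 _
  have hx1 : l i ^ τ ≤ 1 := pow_le_one₀ (hl i).1 (hl i).2
  have h2 : 0 ≤ (1 - l i ^ τ) ^ R := pow_nonneg (by linarith) _
  have h3 : (1 - l i ^ τ) ^ R ≤ 1 := pow_le_one₀ (by linarith) (by linarith)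
  nlinarith

/-- what the polynomial does not catch has a small form -/
theorem rest_le {t : ℝ} (ht0 : 0 < t) (ht1 : t ≤ 1) {τ R : ℕ}
    (hR : (1 / t) ^ (2 * τ) * Real.log (1 / t) ≤ R) (f : κ → ℝ) :
    (((1 - A ^ τ) ^ R) *ᵥ f) ⬝ᵥ (A *ᵥ (((1 - A ^ τ) ^ R) *ᵥ f)) ≤ t ^ 2 * (f ⬝ᵥ f) := by
  obtain ⟨V, l, hV1, hV2, hAV, hl⟩ := exists_diag hA h0 h1
  have e1 : A = dg V l := hAV
  have e2 : (1 - A ^ τ) ^ R = dg V ((1 - l ^ τ) ^ R) := by
    rw [e1, dg_pow hV1 hV2]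
    conv_lhs => rw [← dg_one hV1, dg_sub, dg_pow hV1 hV2]
  rw [e2, dot_symm (dg_transpose _), Matrix.mulVec_mulVec, Matrix.mulVec_mulVec, e1, dg_mul hV2,
    dg_mul hV2]
  refine dg_form_le hV1 (fun i => ?_) f
  simp only [Pi.mul_apply, Pi.sub_apply, Pi.one_apply, Pi.pow_apply]
  rw [mul_assoc]
  have hx0 : 0 ≤ l i ^ τ := pow_nonneg (hl i).1 _
  have hx1 : l i ^ τ ≤ 1 := pow_le_one₀ (hl i).1 (hl i).2
  have h2 : 0 ≤ (1 - l i ^ τ) ^ R := pow_nonneg (by linarith) _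
  have h3 : (1 - l i ^ τ) ^ R ≤ 1 := pow_le_one₀ (by linarith) (by linarith)
  rcases le_or_gt (l i) (t ^ 2) with h | h
  · calc (1 - l i ^ τ) ^ R * (l i * (1 - l i ^ τ) ^ R) ≤ 1 * (l i * 1) := by
          gcongr
          exact mul_nonneg (hl i).1 h2
          exact (hl i).1
      _ ≤ t ^ 2 := by simpa using h
  · have h4 : t ^ (2 * τ) ≤ l i ^ τ := by
      rw [pow_mul]
      exact pow_le_pow_left₀ (by positivity) h.le _
    have h5 : (1 - l i ^ τ) ^ R ≤ t := by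
      calc (1 - l i ^ τ) ^ R ≤ (Real.exp (-(t ^ (2 * τ)))) ^ R := by
            refine pow_le_pow_left₀ (by linarith) ?_ _
            have := Real.add_one_le_exp (-(t ^ (2 * τ)))
            linarith
        _ = Real.exp (-(R * t ^ (2 * τ))) := by
            rw [← Real.exp_nat_mul]
            ring_nf
        _ ≤ Real.exp (Real.log t) := by
            refine Real.exp_le_exp.2 ?_
            have h6 : 0 < t ^ (2 * τ) := by positivity
            have h7 := mul_le_mul_of_nonneg_right hR h6.le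
            have h8 : (1 / t) ^ (2 * τ) * Real.log (1 / t) * t ^ (2 * τ) = Real.log (1 / t) := by
              rw [one_div, inv_pow]
              field_simp
            rw [h8, one_div, Real.log_inv] at h7
            linarith
        _ = t := Real.exp_log ht0
    calc (1 - l i ^ τ) ^ R * (l i * (1 - l i ^ τ) ^ R) ≤ t * (1 * t) := by
          gcongr
          exact mul_nonneg (hl i).1 h2
          exact (hl i).2
      _ = t ^ 2 := by ring

end package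

end Pool.Agent.Lib.P325y
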