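import Mathlib

/-!
Averaging matrices over the classes of a function.
-/

open scoped BigOperators Matrix
open Finset

namespace Pool.Agent.Lib.P325y

section av

variable {κ α β : Type*} [Fintype κ]

/-- the size of the class of `a` -/
noncomputable def cl (key : κ → α) (a : κ) : ℝ := by
  classical
  exact ((univ.filter (fun c => key c = key a)).card : ℝ)

/-- the averaging matrix over the classes of `key` -/
noncomputable def av (key : κ → α) : Matrix κ κ ℝ := by
  classical
  exact fun a b => if key b = key a then (cl key a)⁻¹ else 0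

theorem cl_pos (key : κ → α) (a : κ) : 0 < cl key a := by
  classical
  rw [cl]
  exact_mod_cast card_pos.2 ⟨a, by simp⟩

theorem cl_congr {key : κ → α} {a b : κ} (h : key b = key a) : cl key b = cl key a := by
  classical
  rw [cl, cl, h]

theorem av_apply [DecidableEq α] (key : κ → α) (a b : κ) :
    av key a b = if key b = key a then (cl key a)⁻¹ else 0 := by
  rw [av]
  congr

theorem av_nonneg (key : κ → α) (a b : κ) : 0 ≤ av key a b := by
  classical
  rw [av_apply]
  split_ifs
  · exact inv_nonneg.2 (cl_pos key a).le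
  · exact le_rfl

theorem av_mulVec [DecidableEq α] (key : κ → α) (f : κ → ℝ) (a : κ) :
    (av key *ᵥ f) a = (∑ b with key b = key a, f b) / cl key a := by
  rw [Matrix.mulVec, dotProduct, div_eq_mul_inv, sum_mul, sum_filter]
  refine sum_congr rfl fun b _ => ?_
  rw [av_apply]
  split_ifs
  · ring
  · ring

theorem av_transpose (key : κ → α) : (av key)ᵀ = av key := by
  classical
  ext a b
  rw [Matrix.transpose_apply, av_apply, av_apply]
  by_cases h : key a = key b
  · rw [if_pos h, if_pos h.symm, cl_congr h]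
  · rw [if_neg h, if_neg (fun h' => h h'.symm)]

/-- averaging fixes the functions of `key` -/
theorem av_mulVec_eq {key : κ → α} {f : κ → ℝ} (h : ∀ a b, key b = key a → f b = f a) :
    av key *ᵥ f = f := by
  classical
  ext a
  rw [av_mulVec, sum_congr rfl (g := fun _ => f a) fun b hb => h a b (mem_filter.1 hb).2,
    sum_const, nsmul_eq_mul, mul_comm]
  have h1 := (cl_pos key a).ne'
  rw [cl] at h1 ⊢
  exact mul_div_cancel_right₀ _ (by convert h1)

/-- averages are functions of `key` -/
theorem av_mulVec_congr {key : κ → α} (f : κ → ℝ) {a b : κ} (h : key b = key a) :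
    (av key *ᵥ f) b = (av key *ᵥ f) a := by
  classical
  rw [av_mulVec, av_mulVec, cl_congr h, h]

/-- averaging over fine classes does not change the averages over coarse classes -/
theorem av_mul_of_coarse {key : κ → α} {key' : κ → β} (h : ∀ a b, key b = key a → key' b = key' a) :
    av key * av key' = av key' := by
  classical
  ext a c
  have h1 : (fun b => av key' b c) = fun b => av key' c b := by
    funext b
    have := congrFun (congrFun (av_transpose key') b) c
    rw [Matrix.transpose_apply] at this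
    exact this.symm
  have h2 : (av key * av key') a c = (av key *ᵥ fun b => av key' b c) a := by
    rw [Matrix.mul_apply, Matrix.mulVec, dotProduct]
  rw [h2, av_mulVec_eq]
  intro a b hab
  have h3 := h a b hab
  simp only [av_apply]
  rw [h3, cl_congr h3]

theorem av_mul_self (key : κ → α) : av key * av key = av key :=
  av_mul_of_coarse fun _ _ h => h

theorem av_mul_of_coarse' {key : κ → α} {key' : κ → β}
    (h : ∀ a b, key b = key a → key' b = key' a) : av key' * av key = av key' := by
  have h1 := congrArg Matrix.transpose (av_mul_of_coarse h)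
  rwa [Matrix.transpose_mul, av_transpose, av_transpose] at h1

/-- the trace is the number of classes -/
theorem trace_av (key : κ → α) : (av key).trace = (Set.range key).ncard := by
  classical
  have h1 : (av key).trace = ∑ a, (cl key a)⁻¹ := by
    rw [Matrix.trace]
    refine sum_congr rfl fun a _ => ?_
    rw [Matrix.diag_apply, av_apply, if_pos rfl]
  have h2 : Set.range key = ((univ.image key : Finset α) : Set α) := by simp
  rw [h1, h2, Set.ncard_coe_finset,
    ← sum_fiberwise_of_maps_to (t := univ.image key) (g := key)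
      (fun e _ => mem_image_of_mem key (mem_univ e)), card_eq_sum_ones, Nat.cast_sum]
  refine sum_congr rfl fun x hx => ?_
  obtain ⟨a, -, rfl⟩ := mem_image.1 hx
  rw [sum_congr rfl (g := fun _ => (cl key a)⁻¹)
    fun b hb => by rw [cl_congr (mem_filter.1 hb).2], sum_const, nsmul_eq_mul, Nat.cast_one]
  have h3 := (cl_pos key a).ne'
  rw [cl] at h3 ⊢
  exact mul_inv_cancel₀ (by convert h3)

/-- the sum of all entries of an average -/
theorem sum_av_mulVec (key : κ → α) (f : κ → ℝ) : ∑ a, (av key *ᵥ f) a = ∑ a, f a := by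
  classical
  have h1 : ∑ a, (av key *ᵥ f) a = (fun _ => (1 : ℝ)) ⬝ᵥ (av key *ᵥ f) := by
    simp [dotProduct]
  rw [h1, Matrix.dotProduct_mulVec, ← Matrix.mulVec_transpose, av_transpose,
    av_mulVec_eq (fun _ _ _ => rfl)]
  simp [dotProduct]

end av

section proj

variable {κ : Type*} [Fintype κ]

/-- symmetric idempotents are self-adjoint projections -/
theorem dot_proj {P : Matrix κ κ ℝ} (h1 : Pᵀ = P) (h2 : P * P = P) (f : κ → ℝ) :
    (P *ᵥ f) ⬝ᵥ (P *ᵥ f) = f ⬝ᵥ (P *ᵥ f) := by
  rw [Matrix.dotProduct_mulVec, ← Matrix.mulVec_transpose, h1, Matrix.mulVec_mulVec, h2,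
    dotProduct_comm]

theorem dot_symm {P : Matrix κ κ ℝ} (h1 : Pᵀ = P) (f g : κ → ℝ) :
    (P *ᵥ f) ⬝ᵥ g = f ⬝ᵥ (P *ᵥ g) := by
  rw [Matrix.dotProduct_mulVec, ← Matrix.mulVec_transpose, h1]

theorem dot_self_nonneg (f : κ → ℝ) : 0 ≤ f ⬝ᵥ f :=
  sum_nonneg fun _ _ => mul_self_nonneg _

theorem dot_sq_le (f g : κ → ℝ) : (f ⬝ᵥ g) ^ 2 ≤ (f ⬝ᵥ f) * (g ⬝ᵥ g) := by
  have h := sum_mul_sq_le_sq_mul_sq univ f g
  simpa [dotProduct, sq] using h

theorem dot_le_sqrt (f g : κ → ℝ) : f ⬝ᵥ g ≤ √(f ⬝ᵥ f) * √(g ⬝ᵥ g) := by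
  rw [← Real.sqrt_mul (dot_self_nonneg f)]
  exact Real.le_sqrt_of_sq_le (dot_sq_le f g)

/-- projections do not increase the norm -/
theorem proj_le {P : Matrix κ κ ℝ} (h1 : Pᵀ = P) (h2 : P * P = P) (f : κ → ℝ) :
    (P *ᵥ f) ⬝ᵥ (P *ᵥ f) ≤ f ⬝ᵥ f := by
  have h3 := dot_sq_le f (P *ᵥ f)
  rw [← dot_proj h1 h2] at h3
  by_contra hcon
  push Not at hcon
  have h4 := dot_self_nonneg f
  nlinarith [mul_lt_mul_of_pos_right hcon (h4.trans_lt hcon)]

end proj

end Pool.Agent.Lib.P325y
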