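import Pool.Agent.Lib.P325x.Defs

/-!
Propagation of labels along the random walk of the label extended graph of a unique game, and the
rounding by squares.
-/

open scoped BigOperators

namespace Pool.Agent.Lib.P325x

variable {U W Ω ι : Type} [Fintype ι]

/-- The average of `y (dst e) (perm e i)` over the edges `e` with left end `u`. -/
noncomputable def Game.toLeft (I : Game U W Ω ι) (y : W → Ω → ℝ) (u : U) (i : Ω) : ℝ := by
  classical
  exact (∑ e with I.src e = u, y (I.dst e) (I.perm e i)) /
    ((Finset.univ.filter (fun e => I.src e = u)).card : ℝ)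

/-- The average of `f (src e) ((perm e).symm j)` over the edges `e` with right end `w`. -/
noncomputable def Game.toRight (I : Game U W Ω ι) (f : U → Ω → ℝ) (w : W) (j : Ω) : ℝ := by
  classical
  exact (∑ e with I.dst e = w, f (I.src e) ((I.perm e).symm j)) /
    ((Finset.univ.filter (fun e => I.dst e = w)).card : ℝ)

/-- Two steps of the random walk on the pairs (vertex, label), from the right side to itself: the
mean of `y` after the walk `(w, j) → (u, i) → (w', j')` along two random edges. -/
noncomputable def Game.walk (I : Game U W Ω ι) (y : W → Ω → ℝ) : W → Ω → ℝ :=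
  I.toRight (I.toLeft y)

/-- The function `(1 - (1 - walk ^ τ) ^ R) y`. -/
noncomputable def Game.propagate (I : Game U W Ω ι) (τ R : ℕ) (y : W → Ω → ℝ) : W → Ω → ℝ :=
  y - (fun z : W → Ω → ℝ => z - I.walk^[τ] z)^[R] y

/-- The function with mass `1 / degree` on every seed: a seed `(w, j)` says that the right vertex
`w` has the label `j`. -/
noncomputable def Game.seed (I : Game U W Ω ι) {M : ℕ} (S : Fin M → W × Ω) (w : W) (j : Ω) : ℝ := by
  classical
  exact ∑ i, if S i = (w, j) then
    1 / ((Finset.univ.filter (fun e => I.dst e = w)).card : ℝ) else 0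

/-- The probability `y (w, j)₊ ^ 2 / ∑ i, y (w, i)₊ ^ 2` of the label `j` at the vertex `w`. -/
noncomputable def squareProb [Fintype Ω] (y : W → Ω → ℝ) (w : W) (j : Ω) : ℝ :=
  (max (y w j) 0) ^ 2 / ∑ i, (max (y w i) 0) ^ 2

/-- The expected fraction of satisfied edges if the right vertices `w` choose independent random
labels `j` with the probabilities `squareProb y w j` and the left vertices the best labels for
these probabilities. -/
noncomputable def Game.roundValue [Fintype Ω] (I : Game U W Ω ι) (y : W → Ω → ℝ) : ℝ :=
  ⨆ x : U → Ω, (∑ e, squareProb y (I.dst e) (I.perm e (x (I.src e)))) / (Fintype.card ι : ℝ)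

/-- The number of steps `τ = ⌊log n / (2 log (1 / μ))⌋ + 1`. -/
noncomputable def walkLength (μ : ℝ) (n : ℕ) : ℕ := ⌊Real.log n / (2 * Real.log (1 / μ))⌋₊ + 1

/-- The number of rounds `R = ⌈t ^ (- 2 τ) log (1 / t)⌉`. -/
noncomputable def walkRounds (t : ℝ) (τ : ℕ) : ℕ := ⌈(1 / t) ^ (2 * τ) * Real.log (1 / t)⌉₊

end Pool.Agent.Lib.P325x
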