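import Pool.Agent.Lib.P325y.Walk

/-!
The subexponential phase of unique games on expanders: the labels of few vertices, propagated along
the random walk of the label extended graph, determine a good labelling.
-/

open scoped BigOperators Matrix
open Finset

namespace Pool.Agent.Lib.P325y

open Pool.Agent.Lib.P325x

section sample

variable {κ ι : Type*} [Fintype κ] [Fintype ι] [Nonempty ι]

/-- a good sample of a family of vectors with sum zero -/
theorem exists_sample (g : ι → κ → ℝ) (hg : ∑ e, g e = 0) {c : ℝ}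
    (hc : ∑ e, g e ⬝ᵥ g e ≤ Fintype.card ι * c) (M : ℕ) :
    ∃ S : Fin M → ι, (∑ i, g (S i)) ⬝ᵥ (∑ i, g (S i)) ≤ M * c := by
  induction M with
  | zero => exact ⟨Fin.elim0, by simp⟩
  | succ n ih =>
    obtain ⟨S, hS⟩ := ih
    set v := ∑ i, g (S i) with hv
    have h1 : ∑ e, (v + g e) ⬝ᵥ (v + g e) ≤ ∑ _e : ι, ((v ⬝ᵥ v) + c) := by
      have e1 : ∀ e, (v + g e) ⬝ᵥ (v + g e) = v ⬝ᵥ v + 2 * (v ⬝ᵥ g e) + g e ⬝ᵥ g e := by
        intro e
        rw [add_dotProduct, dotProduct_add, dotProduct_add, dotProduct_comm (g e) v]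
        ring
      have e2 : ∑ e, v ⬝ᵥ g e = 0 := by
        rw [← dotProduct_sum, hg, dotProduct_zero]
      simp only [e1]
      rw [sum_add_distrib, sum_add_distrib, ← mul_sum, e2, sum_const, sum_const, nsmul_eq_mul,
        nsmul_eq_mul, card_univ]
      linarith
    obtain ⟨e, -, he⟩ := exists_le_of_sum_le (univ_nonempty (α := ι)) h1
    refine ⟨Fin.snoc S e, ?_⟩
    rw [Fin.sum_univ_castSucc]
    simp only [Fin.snoc_castSucc, Fin.snoc_last]
    rw [← hv]
    push_cast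
    linarith

end sample

section round

variable {U W Ω ι : Type} [Fintype ι] [Fintype Ω] (I : Game U W Ω ι)

theorem squareProb_nonneg (y : W → Ω → ℝ) (w : W) (j : Ω) : 0 ≤ squareProb y w j := by
  rw [squareProb]
  exact div_nonneg (sq_nonneg _) (sum_nonneg fun _ _ => sq_nonneg _)

theorem sq_eq_squareProb (y : W → Ω → ℝ) (w : W) (j : Ω) :
    (max (y w j) 0) ^ 2 = (∑ i, (max (y w i) 0) ^ 2) * squareProb y w j := by
  rw [squareProb]
  rcases (sum_nonneg fun i (_ : i ∈ univ) => sq_nonneg (max (y w i) 0)).eq_or_lt with h | h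
  · rw [← h, zero_mul]
    exact (sum_eq_zero_iff_of_nonneg fun i _ => sq_nonneg _).1 h.symm j (mem_univ j)
  · rw [mul_div_cancel₀ _ h.ne']

theorem squareProb_le_one (y : W → Ω → ℝ) (w : W) (j : Ω) : squareProb y w j ≤ 1 := by
  rw [squareProb]
  exact div_le_one_of_le₀ (single_le_sum (f := fun i => (max (y w i) 0) ^ 2)
    (fun i _ => sq_nonneg _) (mem_univ j)) (sum_nonneg fun _ _ => sq_nonneg _)

theorem le_roundValue (y : W → Ω → ℝ) (x : U → Ω) :
    (∑ e, squareProb y (I.dst e) (I.perm e (x (I.src e)))) / (Fintype.card ι : ℝ) ≤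
      I.roundValue y := by
  refine le_ciSup (f := fun x : U → Ω =>
    (∑ e, squareProb y (I.dst e) (I.perm e (x (I.src e)))) / (Fintype.card ι : ℝ)) ⟨1, ?_⟩ x
  rintro _ ⟨x, rfl⟩
  refine div_le_one_of_le₀ ?_ (Nat.cast_nonneg _)
  refine (sum_le_sum fun e _ => squareProb_le_one y _ _).trans_eq ?_
  rw [sum_const, nsmul_eq_mul, mul_one, card_univ]

/-- **Rounding.** A function that correlates with a labelling rounds to a good labelling. -/
theorem round_ge (y : W → Ω → ℝ) (x : U → Ω) :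
    ∑ e, y (I.dst e) (I.perm e (x (I.src e))) ≤
      √(LL I y ⬝ᵥ LL I y) * √(Fintype.card ι * I.roundValue y) := by
  set N : ι → ℝ := fun e => ∑ i, (max (y (I.dst e) i) 0) ^ 2 with hN
  set z : ι → ℝ := fun e => squareProb y (I.dst e) (I.perm e (x (I.src e))) with hz
  have hN0 : ∀ e, 0 ≤ N e := fun e => sum_nonneg fun _ _ => sq_nonneg _
  have hz0 : ∀ e, 0 ≤ z e := fun e => squareProb_nonneg _ _ _
  have h1 : ∑ e, y (I.dst e) (I.perm e (x (I.src e))) ≤ ∑ e, √(N e) * √(z e) := by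
    refine sum_le_sum fun e _ => ?_
    rw [← Real.sqrt_mul (hN0 e), hN, hz]
    dsimp only
    rw [← sq_eq_squareProb, Real.sqrt_sq (le_max_right _ _)]
    exact le_max_left _ _
  have h2 : ∑ e, √(N e) * √(z e) ≤ √(∑ e, N e) * √(∑ e, z e) := by
    have h3 := dot_le_sqrt (fun e => √(N e)) (fun e => √(z e))
    simp only [dotProduct] at h3
    simpa only [Real.mul_self_sqrt (hN0 _), Real.mul_self_sqrt (hz0 _)] using h3
  have h3 : ∑ e, N e ≤ LL I y ⬝ᵥ LL I y := by
    rw [dotProduct, Fintype.sum_prod_type]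
    refine sum_le_sum fun e _ => sum_le_sum fun i _ => ?_
    rw [LL, ← sq]
    rcases le_total (y (I.dst e) i) 0 with h | h
    · rw [max_eq_right h, zero_pow two_ne_zero]
      exact sq_nonneg _
    · rw [max_eq_left h]
  have h4 : ∑ e, z e ≤ Fintype.card ι * I.roundValue y := by
    rcases Nat.eq_zero_or_pos (Fintype.card ι) with h | h
    · have : IsEmpty ι := Fintype.card_eq_zero_iff.1 h
      simp
    · have h5 := le_roundValue I y x
      have h6 : (0 : ℝ) < Fintype.card ι := by exact_mod_cast h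
      rw [div_le_iff₀ h6] at h5
      linarith
  exact h1.trans (h2.trans (mul_le_mul (Real.sqrt_le_sqrt h3) (Real.sqrt_le_sqrt h4)
    (Real.sqrt_nonneg _) (Real.sqrt_nonneg _)))

/-- The rounding never exceeds the value. -/
theorem roundValue_le (y : W → Ω → ℝ) : I.roundValue y ≤ I.value := by
  classical
  rcases isEmpty_or_nonempty Ω with hΩ | hΩ
  · have h1 : I.roundValue y ≤ 0 := by
      refine Real.iSup_nonpos fun x => ?_
      have : IsEmpty ι := ⟨fun e => hΩ.false (x (I.src e))⟩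
      simp
    have h2 : 0 ≤ I.value := Real.iSup_nonneg fun p => satFrac_nonneg I _ _
    linarith
  · refine ciSup_le fun x => ?_
    set N : W → ℝ := fun w => ∑ i, (max (y w i) 0) ^ 2 with hN
    have hN0 : ∀ e, 0 ≤ N e := fun e => sum_nonneg fun _ _ => sq_nonneg _
    set a : W → Ω → ℝ := fun w =>
      if N w = 0 then Pi.single (Classical.arbitrary Ω) 1 else squareProb y w with ha
    have h1 : ∀ w i, squareProb y w i ≤ a w i := by
      intro w i
      rw [ha]
      dsimp only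
      split_ifs with h
      · have h2 : squareProb y w i = 0 := by
          rw [squareProb]
          rw [hN] at h
          dsimp only at h
          rw [h, div_zero]
        rw [h2, Pi.single_apply]
        split_ifs <;> norm_num
      · exact le_rfl
    have h2 : ∀ w i, 0 ≤ a w i := fun w i => (squareProb_nonneg y w i).trans (h1 w i)
    have h3 : ∀ w, ∑ i, a w i = 1 := by
      intro w
      rw [ha]
      dsimp only
      split_ifs with h
      · simp
      · simp only [squareProb]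
        rw [← sum_div]
        exact div_self h
    obtain ⟨y', hy'⟩ := exists_label I.dst
      (fun e j => if I.perm e (x (I.src e)) = j then (1 : ℝ) else 0) a h2 h3
    refine le_trans ?_ (satFrac_le_value I x y')
    rw [Game.satFrac]
    refine div_le_div_of_nonneg_right ?_ (Nat.cast_nonneg _)
    calc ∑ e, squareProb y (I.dst e) (I.perm e (x (I.src e)))
        ≤ ∑ e, ∑ i, a (I.dst e) i * (if I.perm e (x (I.src e)) = i then (1 : ℝ) else 0) := by
          refine sum_le_sum fun e _ => ?_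
          simp only [mul_ite, mul_one, mul_zero]
          rw [sum_ite_eq univ (I.perm e (x (I.src e))) (fun i => a (I.dst e) i),
            if_pos (mem_univ _)]
          exact h1 _ _
      _ ≤ ∑ e, (if I.perm e (x (I.src e)) = y' (I.dst e) then (1 : ℝ) else 0) := hy'
      _ = _ := by
          rw [sum_ite, sum_const_zero, add_zero, sum_const, nsmul_eq_mul, mul_one]

end round

section value

variable {U W Ω ι : Type} [Fintype ι] (I : Game U W Ω ι)

/-- the value is attained -/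
theorem exists_value (h : 0 < I.value) : ∃ x y, I.satFrac x y = I.value := by
  classical
  have hne : Nonempty ((U → Ω) × (W → Ω)) := by
    by_contra hcon
    rw [not_nonempty_iff] at hcon
    rw [Game.value, Real.iSup_of_isEmpty] at h
    exact lt_irrefl _ h
  have hfin : (Set.range fun p : (U → Ω) × (W → Ω) => I.satFrac p.1 p.2).Finite := by
    refine ((Set.finite_Iic (Fintype.card ι)).image
      (fun k : ℕ => (k : ℝ) / (Fintype.card ι : ℝ))).subset ?_
    rintro _ ⟨p, rfl⟩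
    exact ⟨_, Set.mem_Iic.2 (card_le_univ _), rfl⟩
  obtain ⟨p, hp⟩ := (Set.range_nonempty _).csSup_mem hfin
  exact ⟨p.1, p.2, hp⟩

end value

section main

variable {U W Ω ι : Type} [Fintype ι] [Fintype Ω] (I : Game U W Ω ι)

/-- the left labelling `x` on the edges -/
noncomputable def aa (x : U → Ω) (p : ι × Ω) : ℝ := by
  classical
  exact if I.perm p.1 (x (I.src p.1)) = p.2 then 1 else 0

/-- the right labelling `y` on the edges -/
noncomputable def bb (y : W → Ω) (p : ι × Ω) : ℝ := by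
  classical
  exact if y (I.dst p.1) = p.2 then 1 else 0

theorem aa_dot (x : U → Ω) (f : ι × Ω → ℝ) :
    aa I x ⬝ᵥ f = ∑ e, f (e, I.perm e (x (I.src e))) := by
  classical
  rw [dotProduct, Fintype.sum_prod_type]
  refine sum_congr rfl fun e _ => ?_
  simp only [aa, ite_mul, one_mul, zero_mul]
  rw [sum_ite_eq univ (I.perm e (x (I.src e))) (fun i => f (e, i)), if_pos (mem_univ _)]

theorem bb_dot (y : W → Ω) (f : ι × Ω → ℝ) :
    bb I y ⬝ᵥ f = ∑ e, f (e, y (I.dst e)) := by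
  classical
  rw [dotProduct, Fintype.sum_prod_type]
  refine sum_congr rfl fun e _ => ?_
  simp only [bb, ite_mul, one_mul, zero_mul]
  rw [sum_ite_eq univ (y (I.dst e)) (fun i => f (e, i)), if_pos (mem_univ _)]

theorem aa_aa (x : U → Ω) : aa I x ⬝ᵥ aa I x = Fintype.card ι := by
  rw [aa_dot]
  simp [aa]

theorem bb_bb (y : W → Ω) : bb I y ⬝ᵥ bb I y = Fintype.card ι := by
  rw [bb_dot]
  simp [bb]

theorem aa_bb [Nonempty ι] (x : U → Ω) (y : W → Ω) :
    aa I x ⬝ᵥ bb I y = Fintype.card ι * I.satFrac x y := by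
  classical
  have h : (0 : ℝ) < Fintype.card ι := by exact_mod_cast Fintype.card_pos
  rw [aa_dot, Game.satFrac, mul_div_cancel₀ _ h.ne']
  simp only [bb]
  rw [sum_ite, sum_const_zero, add_zero, sum_const, nsmul_eq_mul, mul_one]
  congr 2
  ext e
  simp only [mem_filter, mem_univ, true_and]
  exact eq_comm

theorem PU_aa (x : U → Ω) : PU I *ᵥ aa I x = aa I x := by
  classical
  refine av_mulVec_eq fun p q h => ?_
  simp only [lift, Prod.mk.injEq] at h
  have h1 : ∀ p : ι × Ω, aa I x p = if x (I.src p.1) = (I.perm p.1).symm p.2 then 1 else 0 := by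
    intro p
    rw [aa]
    congr 1
    rw [Equiv.eq_symm_apply]
  rw [h1, h1, h.1, h.2]

theorem QW_bb (y : W → Ω) : QW I *ᵥ bb I y = bb I y := by
  classical
  refine av_mulVec_eq fun p q h => ?_
  simp only [lift, Prod.mk.injEq, Equiv.Perm.coe_one, id] at h
  rw [bb, bb, h.1, h.2]

omit [Fintype Ω] in
theorem bb_eq (y : W → Ω) : bb I y = ∑ e, cc I y e := by
  classical
  ext p
  rw [Finset.sum_apply, sum_eq_single p.1]
  · simp only [bb, cc, Pi.single_apply]
    congr 1
    rw [eq_iff_iff]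
    constructor
    · intro h; ext <;> simp [h]
    · intro h; rw [h]
  · intro e _ he
    simp only [cc, Pi.single_apply]
    rw [if_neg]
    intro h
    exact he (by rw [h])
  · intro h
    exact absurd (mem_univ _) h

variable [DecidableEq ι] [DecidableEq Ω]

/-- the squared norms of the images of the parts of a labelling -/
theorem sum_cc_le [Nonempty ι] {μ : ℝ} (hμ : 0 ≤ μ) (hI : I.SecondEigenvalueLE μ) (τ R : ℕ)
    (y : W → Ω) :
    ∑ e, (pm (AA I) (τ + 1) R *ᵥ cc I y e) ⬝ᵥ (pm (AA I) (τ + 1) R *ᵥ cc I y e) ≤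
      R * (1 + (Set.range I.src).ncard * μ ^ (2 * (τ + 1))) := by
  have h2 : ∀ e, cc I y e = Pi.single (e, y (I.dst e)) 1 := by
    intro e
    rw [cc]
    congr
    exact Subsingleton.elim _ _
  calc _ ≤ ∑ e, (R : ℝ) * (cc I y e ⬝ᵥ (AA I ^ (τ + 1) *ᵥ cc I y e)) :=
        sum_le_sum fun e _ => pm_form_le (AA_t I) (AA_nonneg I) (AA_le I) _ _ _
    _ = R * ∑ e, (AA I ^ (τ + 1)) (e, y (I.dst e)) (e, y (I.dst e)) := by
        rw [mul_sum]
        refine sum_congr rfl fun e _ => ?_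
        rw [h2]
        simp
    _ ≤ _ := mul_le_mul_of_nonneg_left (diag_AA I hμ hI τ fun e => y (I.dst e))
        (Nat.cast_nonneg _)

/-- The theorem for given numbers of steps, rounds and seeds. -/
theorem seeds [Nonempty ι] {μ t s η : ℝ} (hμ : 0 ≤ μ) (ht0 : 0 < t) (ht1 : t ≤ 1) (hη : 0 ≤ η)
    (hI : I.SecondEigenvalueLE μ) {τ R M : ℕ}
    (hτ : (Set.range I.src).ncard * μ ^ (2 * (τ + 1)) ≤ 1)
    (hR : (1 / t) ^ (2 * (τ + 1)) * Real.log (1 / t) ≤ R)
    (hM0 : 0 < M) (hM : 2 * R ≤ η ^ 2 * M) (x : U → Ω) (y : W → Ω)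
    (hs : s ≤ I.satFrac x y) :
    ∃ S : Fin M → W × Ω,
      s - t - η ≤ (1 + η) * √(I.roundValue (I.propagate (τ + 1) R (I.seed S))) := by
  set m : ℝ := (Fintype.card ι : ℝ) with hm
  have hm0 : 0 < m := by rw [hm]; exact_mod_cast Fintype.card_pos
  set X := pm (AA I) (τ + 1) R with hX
  have h1 : m * (s - t) ≤ aa I x ⬝ᵥ (X *ᵥ bb I y) := by
    have h2 := lost_le I ht0 ht1 hR (PU_aa I x) (QW_bb I y) (aa_aa I x) (bb_bb I y)
    rw [aa_bb] at h2
    have h3 := mul_le_mul_of_nonneg_left hs hm0.le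
    linarith
  have h2 : (X *ᵥ bb I y) ⬝ᵥ (X *ᵥ bb I y) ≤ m :=
    (pm_contr (AA_t I) (AA_nonneg I) (AA_le I) _ _ _).trans_eq (bb_bb I y)
  have h3 : ∑ e, (X *ᵥ cc I y e) ⬝ᵥ (X *ᵥ cc I y e) ≤ η ^ 2 * M := by
    refine (sum_cc_le I hμ hI τ R y).trans (le_trans ?_ hM)
    have h4 := mul_le_mul_of_nonneg_left hτ (Nat.cast_nonneg (α := ℝ) R)
    linarith
  -- the sample
  set g : ι → (ι × Ω → ℝ) := fun e => m • (X *ᵥ cc I y e) - X *ᵥ bb I y with hg
  have hsumc : ∑ e, X *ᵥ cc I y e = X *ᵥ bb I y := by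
    rw [← Matrix.mulVec_sum, ← bb_eq]
  have g1 : ∑ e, g e = 0 := by
    rw [hg, sum_sub_distrib, ← smul_sum, hsumc, sum_const, card_univ, ← Nat.cast_smul_eq_nsmul ℝ,
      ← hm, sub_self]
  have g2 : ∑ e, g e ⬝ᵥ g e ≤ Fintype.card ι * (m * (η ^ 2 * M)) := by
    have e1 : ∀ e, g e ⬝ᵥ g e = m ^ 2 * ((X *ᵥ cc I y e) ⬝ᵥ (X *ᵥ cc I y e)) -
        2 * m * ((X *ᵥ cc I y e) ⬝ᵥ (X *ᵥ bb I y)) + (X *ᵥ bb I y) ⬝ᵥ (X *ᵥ bb I y) := by
      intro e
      rw [hg]
      dsimp only
      rw [sub_dotProduct, dotProduct_sub, dotProduct_sub, smul_dotProduct, smul_dotProduct,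
        dotProduct_smul, dotProduct_smul, dotProduct_comm (X *ᵥ bb I y) (X *ᵥ cc I y e)]
      simp only [smul_eq_mul]
      ring
    simp only [e1]
    rw [sum_add_distrib, sum_sub_distrib, ← mul_sum, ← mul_sum, ← sum_dotProduct, hsumc, sum_const,
      card_univ, nsmul_eq_mul, ← hm]
    have e3 : 0 ≤ (X *ᵥ bb I y) ⬝ᵥ (X *ᵥ bb I y) := dot_self_nonneg _
    have e4 : m ^ 2 * ∑ e, (X *ᵥ cc I y e) ⬝ᵥ (X *ᵥ cc I y e) ≤ m ^ 2 * (η ^ 2 * M) :=
      mul_le_mul_of_nonneg_left h3 (by positivity)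
    nlinarith [mul_nonneg hm0.le e3]
  obtain ⟨S, hS⟩ := exists_sample g g1 g2 M
  refine ⟨fun i => (I.dst (S i), y (I.dst (S i))), ?_⟩
  set Y := I.propagate (τ + 1) R (I.seed fun i => (I.dst (S i), y (I.dst (S i)))) with hY
  have hLY : LL I Y = X *ᵥ ∑ i, cc I y (S i) := by
    rw [hY, LL_propagate, LL_seed, Matrix.mulVec_mulVec, pm_QW]
  set v := ∑ i, g (S i) with hv
  have hmLY : m • LL I Y = (M : ℝ) • (X *ᵥ bb I y) + v := by
    rw [hv, hg, sum_sub_distrib, ← smul_sum, sum_const, card_univ, Fintype.card_fin, hLY,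
      Matrix.mulVec_sum, ← Nat.cast_smul_eq_nsmul ℝ]
    abel
  have hM1 : (0 : ℝ) < M := by exact_mod_cast hM0
  have hsv : √(v ⬝ᵥ v) ≤ η * M * √m := by
    have e : (M : ℝ) * (m * (η ^ 2 * M)) = (η * M) ^ 2 * m := by ring
    rw [e] at hS
    calc √(v ⬝ᵥ v) ≤ √((η * M) ^ 2 * m) := Real.sqrt_le_sqrt hS
      _ = η * M * √m := by rw [Real.sqrt_mul (by positivity), Real.sqrt_sq (by positivity)]
  have hsm : √m * √m = m := Real.mul_self_sqrt hm0.le
  -- correlation
  have k1 : M * (m * (s - t - η)) ≤ m * (aa I x ⬝ᵥ LL I Y) := by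
    have e1 : m * (aa I x ⬝ᵥ LL I Y) = M * (aa I x ⬝ᵥ (X *ᵥ bb I y)) + aa I x ⬝ᵥ v := by
      rw [← smul_eq_mul, ← dotProduct_smul, hmLY, dotProduct_add, dotProduct_smul, smul_eq_mul]
    have e2 : -(aa I x ⬝ᵥ v) ≤ √m * (η * M * √m) := by
      have e3 := dot_le_sqrt (aa I x) (-v)
      rw [dotProduct_neg, neg_dotProduct, dotProduct_neg, neg_neg, aa_aa, ← hm] at e3
      exact e3.trans (mul_le_mul_of_nonneg_left hsv (Real.sqrt_nonneg _))
    have e4 : √m * (η * M * √m) = η * M * m := by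
      calc √m * (η * M * √m) = η * M * (√m * √m) := by ring
        _ = η * M * m := by rw [hsm]
    have e5 := mul_le_mul_of_nonneg_left h1 hM1.le
    rw [e1]
    linarith
  -- norm
  have k2 : m * √(LL I Y ⬝ᵥ LL I Y) ≤ M * (1 + η) * √m := by
    have e1 : m * √(LL I Y ⬝ᵥ LL I Y) = √((m • LL I Y) ⬝ᵥ (m • LL I Y)) := by
      rw [smul_dotProduct, dotProduct_smul, smul_eq_mul, smul_eq_mul, ← mul_assoc, ← sq,
        Real.sqrt_mul (by positivity), Real.sqrt_sq hm0.le]
    rw [e1, hmLY]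
    have e2 : √(((M : ℝ) • (X *ᵥ bb I y)) ⬝ᵥ ((M : ℝ) • (X *ᵥ bb I y))) ≤ M * √m := by
      rw [smul_dotProduct, dotProduct_smul, smul_eq_mul, smul_eq_mul, ← mul_assoc, ← sq,
        Real.sqrt_mul (by positivity), Real.sqrt_sq hM1.le]
      exact mul_le_mul_of_nonneg_left (Real.sqrt_le_sqrt h2) hM1.le
    set w := (M : ℝ) • (X *ᵥ bb I y) with hw
    have e3 : (w + v) ⬝ᵥ (w + v) ≤ (√(w ⬝ᵥ w) + √(v ⬝ᵥ v)) ^ 2 := by
      have e4 := dot_le_sqrt w v
      have e5 := Real.sq_sqrt (dot_self_nonneg w)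
      have e6 := Real.sq_sqrt (dot_self_nonneg v)
      rw [add_dotProduct, dotProduct_add, dotProduct_add, dotProduct_comm v w]
      nlinarith
    calc √((w + v) ⬝ᵥ (w + v)) ≤ √((√(w ⬝ᵥ w) + √(v ⬝ᵥ v)) ^ 2) := Real.sqrt_le_sqrt e3
      _ = √(w ⬝ᵥ w) + √(v ⬝ᵥ v) := Real.sqrt_sq (by positivity)
      _ ≤ M * √m + η * M * √m := add_le_add e2 hsv
      _ = M * (1 + η) * √m := by ring
  -- rounding
  have k3 := round_ge I Y x
  have k4 : aa I x ⬝ᵥ LL I Y = ∑ e, Y (I.dst e) (I.perm e (x (I.src e))) := by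
    rw [aa_dot]
    rfl
  rw [← k4, ← hm, Real.sqrt_mul hm0.le] at k3
  set r := √(I.roundValue Y) with hr
  have hr0 : 0 ≤ r := Real.sqrt_nonneg _
  have k5 : m * (aa I x ⬝ᵥ LL I Y) ≤ (M * (1 + η) * √m) * (√m * r) := by
    calc m * (aa I x ⬝ᵥ LL I Y) ≤ m * (√(LL I Y ⬝ᵥ LL I Y) * (√m * r)) :=
          mul_le_mul_of_nonneg_left k3 hm0.le
      _ = (m * √(LL I Y ⬝ᵥ LL I Y)) * (√m * r) := by ring
      _ ≤ _ := mul_le_mul_of_nonneg_right k2 (by positivity)
  have k6 : (M * (1 + η) * √m) * (√m * r) = M * (m * ((1 + η) * r)) := by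
    calc (M * (1 + η) * √m) * (√m * r) = M * (1 + η) * (√m * √m) * r := by ring
      _ = M * (m * ((1 + η) * r)) := by rw [hsm]; ring
  rw [k6] at k5
  have k7 := le_of_mul_le_mul_left (k1.trans k5) hM1
  exact le_of_mul_le_mul_left k7 hm0

end main

section final

/-- **The subexponential phase.** Let `0 < μ < t < s ≤ 1`. In every game of value at least `s` with
`n` left vertices and second eigenvalue at most `μ`, the labels of at most
`C n ^ (log t / log μ)` vertices, propagated along the random walk of the label extended graph,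
round to a labelling of value at least `(s - t - ε) ^ 2`. `C` depends on `t` and `ε` only, not on
the number of labels. -/
theorem subexponential {μ t s ε : ℝ} (hμ : 0 < μ) (hμt : μ < t) (hts : t < s) (hs1 : s ≤ 1)
    (hε : 0 < ε) :
    ∃ C : ℝ, ∀ (U W Ω ι : Type) [Fintype Ω] [Fintype ι] (I : Game U W Ω ι),
      I.SecondEigenvalueLE μ → s ≤ I.value →
      ∃ (M : ℕ) (S : Fin M → W × Ω),
        (M : ℝ) ≤ C * ((Set.range I.src).ncard : ℝ) ^ (Real.log t / Real.log μ) ∧
        s - t - ε ≤ √(I.roundValue (I.propagate (walkLength μ (Set.range I.src).ncard)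
          (walkRounds t (walkLength μ (Set.range I.src).ncard)) (I.seed S))) := by
  have ht0 : 0 < t := hμ.trans hμt
  have ht1 : t < 1 := hts.trans_le hs1
  have hμ1 : μ < 1 := hμt.trans ht1
  set η := ε / 2 with hη
  have hη0 : 0 < η := by positivity
  set lt := Real.log (1 / t) with hlt
  have hlt0 : 0 < lt := Real.log_pos (by rw [one_div]; exact (one_lt_inv₀ ht0).2 ht1)
  set lm := Real.log (1 / μ) with hlm
  have hlm0 : 0 < lm := Real.log_pos (by rw [one_div]; exact (one_lt_inv₀ hμ).2 hμ1)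
  set γ := Real.log t / Real.log μ with hγ
  have hγ' : γ = lt / lm := by
    rw [hγ, hlt, hlm, one_div, one_div, Real.log_inv, Real.log_inv, neg_div_neg_eq]
  have hγ0 : 0 ≤ γ := by rw [hγ']; positivity
  refine ⟨2 / η ^ 2 * ((1 / t) ^ 2 * lt + 1) + 1, ?_⟩
  intro U W Ω ι _ _ I hI hv
  classical
  obtain ⟨x, y, hxy⟩ := exists_value I ((ht0.trans hts).trans_le hv)
  have hne : Nonempty ι := by
    by_contra hcon
    rw [not_nonempty_iff] at hcon
    have : I.satFrac x y = 0 := by rw [Game.satFrac]; simp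
    rw [this] at hxy
    linarith
  obtain ⟨e0⟩ := hne
  have : Nonempty ι := ⟨e0⟩
  set n := (Set.range I.src).ncard with hn
  have hn1 : 1 ≤ n := by
    rw [hn, Nat.one_le_iff_ne_zero]
    have : (Set.range I.src).Nonempty := Set.range_nonempty _
    exact (Set.ncard_pos (Set.finite_range _)).2 this |>.ne'
  have hn0 : (0 : ℝ) < n := by exact_mod_cast hn1
  set q := Real.log n / (2 * lm) with hq
  have hq0 : 0 ≤ q := div_nonneg (Real.log_nonneg (by exact_mod_cast hn1)) (by positivity)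
  set τ := ⌊q⌋₊ with hτ
  have hw : walkLength μ n = τ + 1 := rfl
  set R := walkRounds t (τ + 1) with hR
  have hτ1 : q < τ + 1 := Nat.lt_floor_add_one q
  have hτ2 : (τ : ℝ) ≤ q := Nat.floor_le hq0
  have hlogq : 2 * q * lm = Real.log n := by rw [hq]; field_simp
  -- steps
  have c1 : (n : ℝ) * μ ^ (2 * (τ + 1)) ≤ 1 := by
    have e1 : μ ^ (2 * (τ + 1)) = Real.exp (-(2 * (τ + 1) * lm)) := by
      rw [hlm, one_div, Real.log_inv]
      have : μ ^ (2 * (τ + 1)) = Real.exp (Real.log (μ ^ (2 * (τ + 1)))) :=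
        (Real.exp_log (by positivity)).symm
      rw [this, Real.log_pow]
      push_cast
      ring_nf
    have e2 : (n : ℝ) = Real.exp (Real.log n) := (Real.exp_log hn0).symm
    rw [e1, e2, ← Real.exp_add]
    refine Real.exp_le_one_iff.2 ?_
    rw [← hlogq]
    nlinarith
  -- rounds
  have c2 : (1 / t) ^ (2 * (τ + 1)) * Real.log (1 / t) ≤ R := Nat.le_ceil _
  have hR0 : 0 < R := by
    rw [hR, walkRounds]
    exact Nat.ceil_pos.2 (mul_pos (by positivity) hlt0)
  have c3 : (1 / t) ^ (2 * (τ + 1)) ≤ (1 / t) ^ 2 * (n : ℝ) ^ γ := by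
    have e1 : (1 / t) ^ (2 * (τ + 1)) = Real.exp (2 * (τ + 1) * lt) := by
      have : (1 / t) ^ (2 * (τ + 1)) = Real.exp (Real.log ((1 / t) ^ (2 * (τ + 1)))) :=
        (Real.exp_log (by positivity)).symm
      rw [this, Real.log_pow, ← hlt]
      push_cast
      ring_nf
    have e2 : (1 / t) ^ 2 = Real.exp (2 * lt) := by
      have : (1 / t) ^ 2 = Real.exp (Real.log ((1 / t) ^ 2)) := (Real.exp_log (by positivity)).symm
      rw [this, Real.log_pow, ← hlt]
      push_cast
      ring_nf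
    have e3 : (n : ℝ) ^ γ = Real.exp (2 * q * lt) := by
      rw [Real.rpow_def_of_pos hn0, hγ', ← hlogq]
      congr 1
      field_simp
    rw [e1, e2, e3, ← Real.exp_add]
    refine Real.exp_le_exp.2 ?_
    nlinarith
  have c4 : (R : ℝ) ≤ ((1 / t) ^ 2 * lt + 1) * (n : ℝ) ^ γ := by
    have e1 : (R : ℝ) ≤ (1 / t) ^ (2 * (τ + 1)) * lt + 1 := (Nat.ceil_lt_add_one (by positivity)).le
    have e2 : (1 : ℝ) ≤ (n : ℝ) ^ γ := Real.one_le_rpow (by exact_mod_cast hn1) hγ0
    have e3 := mul_le_mul_of_nonneg_right c3 hlt0.le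
    nlinarith
  -- seeds
  set M := ⌈2 * R / η ^ 2⌉₊ with hM
  have hM0 : 0 < M := Nat.ceil_pos.2 (by
    have : (0 : ℝ) < R := by exact_mod_cast hR0
    positivity)
  have hM1 : 2 * (R : ℝ) ≤ η ^ 2 * M := by
    have e1 : 2 * R / η ^ 2 ≤ M := Nat.le_ceil _
    rw [div_le_iff₀ (by positivity)] at e1
    linarith
  obtain ⟨S, hS⟩ := seeds I hμ.le ht0 ht1.le hη0.le hI c1 c2 hM0 hM1 x y (hxy ▸ hv)
  refine ⟨M, S, ?_, ?_⟩
  · have e1 : (M : ℝ) ≤ 2 * R / η ^ 2 + 1 := (Nat.ceil_lt_add_one (by positivity)).le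
    have e2 : (1 : ℝ) ≤ (n : ℝ) ^ γ := Real.one_le_rpow (by exact_mod_cast hn1) hγ0
    have e3 : 2 * R / η ^ 2 ≤ 2 / η ^ 2 * ((1 / t) ^ 2 * lt + 1) * (n : ℝ) ^ γ := by
      calc 2 * R / η ^ 2 = (2 / η ^ 2) * R := by ring
        _ ≤ (2 / η ^ 2) * (((1 / t) ^ 2 * lt + 1) * (n : ℝ) ^ γ) :=
          mul_le_mul_of_nonneg_left c4 (by positivity)
        _ = _ := by ring
    calc (M : ℝ) ≤ 2 * R / η ^ 2 + 1 := e1
      _ ≤ 2 / η ^ 2 * ((1 / t) ^ 2 * lt + 1) * (n : ℝ) ^ γ + (n : ℝ) ^ γ := by linarith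
      _ = _ := by ring
  · rw [hw]
    set r := √(I.roundValue (I.propagate (τ + 1) (walkRounds t (τ + 1)) (I.seed S))) with hr
    have hS' : s - t - η ≤ (1 + η) * r := hS
    have hr0 : 0 ≤ r := Real.sqrt_nonneg _
    by_contra hcon
    push Not at hcon
    nlinarith

end final

end Pool.Agent.Lib.P325y
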