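import Pool.Agent.Lib.P325y.Av
import Pool.Agent.Lib.P325y.Defs

/-!
The trace of the powers of the walk operator of the label extended graph of a unique game.
-/

open scoped BigOperators Matrix
open Finset

namespace Pool.Agent.Lib.P325y

open Pool.Agent.Lib.P325x

section fibre

variable {ι Ω α : Type} [Fintype ι] [Fintype Ω]

/-- the class of the pair `(e, j)` -/
def lift (key : ι → α) (σ : ι → Equiv.Perm Ω) (p : ι × Ω) : α × Ω := (key p.1, σ p.1 p.2)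

theorem cl_lift (key : ι → α) (σ : ι → Equiv.Perm Ω) (p : ι × Ω) :
    cl (lift key σ) p = cl key p.1 := by
  classical
  rw [cl, cl]
  congr 1
  refine card_bij' (fun q _ => q.1) (fun e _ => (e, (σ e).symm (σ p.1 p.2))) ?_ ?_ ?_ ?_
  · intro q h
    simp only [mem_filter, lift, Prod.mk.injEq] at h
    simp [h.2.1]
  · intro e h
    simp only [mem_filter] at h
    simp [lift, h.2]
  · intro q h
    simp only [mem_filter, lift, Prod.mk.injEq] at h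
    ext
    · rfl
    · simp [← h.2.2]
  · intro e he
    rfl

/-- `X` is a lift of `Y` -/
def FS (X : Matrix (ι × Ω) (ι × Ω) ℝ) (Y : Matrix ι ι ℝ) : Prop :=
  ∀ p e, ∑ j, X p (e, j) = Y p.1 e

theorem fs_lift (key : ι → α) (σ : ι → Equiv.Perm Ω) : FS (av (lift key σ)) (av key) := by
  classical
  intro p e
  simp only [av_apply, cl_lift]
  by_cases h : key e = key p.1
  · rw [if_pos h, sum_eq_single ((σ e).symm (σ p.1 p.2))]
    · rw [if_pos]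
      simp [lift, h]
    · intro j _ hj
      rw [if_neg]
      intro h'
      simp only [lift, Prod.mk.injEq] at h'
      exact hj (by simp [← h'.2])
    · intro h'
      exact absurd (mem_univ _) h'
  · rw [if_neg h]
    refine sum_eq_zero fun j _ => ?_
    rw [if_neg]
    intro h'
    simp only [lift, Prod.mk.injEq] at h'
    exact h h'.1

theorem FS.mul {X Y : Matrix (ι × Ω) (ι × Ω) ℝ} {X' Y' : Matrix ι ι ℝ} (hX : FS X X')
    (hY : FS Y Y') : FS (X * Y) (X' * Y') := by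
  intro p e
  simp only [Matrix.mul_apply]
  rw [sum_comm, Fintype.sum_prod_type]
  refine sum_congr rfl fun e' _ => ?_
  rw [← hX p e', sum_mul]
  refine sum_congr rfl fun j' _ => ?_
  rw [← mul_sum, hY (e', j') e]

variable [DecidableEq ι] [DecidableEq Ω]

theorem FS.one : FS (1 : Matrix (ι × Ω) (ι × Ω) ℝ) 1 := by
  intro p e
  simp only [Matrix.one_apply]
  by_cases h : p.1 = e
  · rw [if_pos h, sum_eq_single p.2]
    · rw [if_pos]
      ext <;> simp [h]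
    · intro j _ hj
      rw [if_neg]
      intro h'
      exact hj (by rw [h'])
    · intro h'
      exact absurd (mem_univ _) h'
  · rw [if_neg h]
    refine sum_eq_zero fun j _ => ?_
    rw [if_neg]
    intro h'
    exact h (by rw [h'])

theorem FS.pow {X : Matrix (ι × Ω) (ι × Ω) ℝ} {X' : Matrix ι ι ℝ} (hX : FS X X') (n : ℕ) :
    FS (X ^ n) (X' ^ n) := by
  induction n with
  | zero => rw [pow_zero, pow_zero]; exact FS.one
  | succ n ih => rw [pow_succ, pow_succ]; exact ih.mul hX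

theorem nonneg_mul {κ : Type*} [Fintype κ] {X Y : Matrix κ κ ℝ} (hX : ∀ a b, 0 ≤ X a b)
    (hY : ∀ a b, 0 ≤ Y a b) (a b : κ) : 0 ≤ (X * Y) a b := by
  rw [Matrix.mul_apply]
  exact sum_nonneg fun c _ => mul_nonneg (hX _ _) (hY _ _)

theorem nonneg_pow {κ : Type*} [Fintype κ] [DecidableEq κ] {X : Matrix κ κ ℝ}
    (hX : ∀ a b, 0 ≤ X a b) (n : ℕ) : ∀ a b, 0 ≤ (X ^ n) a b := by
  induction n with
  | zero =>
    intro a b
    rw [pow_zero, Matrix.one_apply]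
    split_ifs
    · exact zero_le_one
    · exact le_rfl
  | succ n ih =>
    rw [pow_succ]
    exact nonneg_mul ih hX

theorem FS.trace_le {X : Matrix (ι × Ω) (ι × Ω) ℝ} {X' : Matrix ι ι ℝ} (hX : FS X X')
    (h0 : ∀ a b, 0 ≤ X a b) : X.trace ≤ Fintype.card Ω * X'.trace := by
  rw [Matrix.trace, Matrix.trace, Fintype.sum_prod_type, sum_comm]
  simp only [Matrix.diag_apply]
  have h1 : ∀ j : Ω, ∑ e, X (e, j) (e, j) ≤ ∑ e, X' e e := fun j => by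
    refine sum_le_sum fun e _ => ?_
    rw [← hX (e, j) e]
    exact single_le_sum (f := fun j' => X (e, j) (e, j')) (fun j' _ => h0 _ _) (mem_univ j)
  refine (sum_le_sum fun j _ => h1 j).trans ?_
  rw [sum_const, nsmul_eq_mul, card_univ]

end fibre

section base

variable {κ : Type*} [Fintype κ] [DecidableEq κ]

/-- two projections with small angle: the trace of the powers of their product -/
theorem trace_pow_le {P Q : Matrix κ κ ℝ} (hP : Pᵀ = P) (hPP : P * P = P) (hQ : Qᵀ = Q)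
    (hQQ : Q * Q = Q) {μ : ℝ} (hμ : 0 ≤ μ)
    (h : ∀ f g : κ → ℝ, (P *ᵥ f) ⬝ᵥ (Q *ᵥ g) ≤
      μ * (((P *ᵥ f) ⬝ᵥ (P *ᵥ f) + (Q *ᵥ g) ⬝ᵥ (Q *ᵥ g)) / 2)) (τ : ℕ) :
    ((Q * P * Q) ^ (τ + 1)).trace ≤ μ ^ (2 * (τ + 1)) * P.trace := by
  -- the product of the projections
  have key : ∀ P Q : Matrix κ κ ℝ, Pᵀ = P → P * P = P → Qᵀ = Q → Q * Q = Q →
      (∀ f g : κ → ℝ, (P *ᵥ f) ⬝ᵥ (Q *ᵥ g) ≤
        μ * (((P *ᵥ f) ⬝ᵥ (P *ᵥ f) + (Q *ᵥ g) ⬝ᵥ (Q *ᵥ g)) / 2)) →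
      ∀ f, (Q *ᵥ (P *ᵥ f)) ⬝ᵥ (Q *ᵥ (P *ᵥ f)) ≤ μ ^ 2 * ((P *ᵥ f) ⬝ᵥ (P *ᵥ f)) := by
    intro P Q hP hPP hQ hQQ h f
    set a := (P *ᵥ f) ⬝ᵥ (P *ᵥ f) with ha
    set b := (Q *ᵥ (P *ᵥ f)) ⬝ᵥ (Q *ᵥ (P *ᵥ f)) with hb
    have h1 : ∀ c : ℝ, c * b ≤ μ * ((a + c ^ 2 * b) / 2) := by
      intro c
      have h2 := h f (c • (P *ᵥ f))
      rw [Matrix.mulVec_smul, dotProduct_smul, ← dot_proj hQ hQQ (P *ᵥ f), ← ha, ← hb,
        smul_dotProduct, dotProduct_smul, ← hb, smul_eq_mul, smul_eq_mul,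
        ← mul_assoc c c b, ← sq] at h2
      exact h2
    have ha0 : 0 ≤ a := dot_self_nonneg _
    have hb0 : 0 ≤ b := dot_self_nonneg _
    rcases hb0.eq_or_lt with hb1 | hb1
    · rw [← hb1]; positivity
    have h2 := h1 (√(a / b))
    have h3 : √(a / b) ^ 2 = a / b := Real.sq_sqrt (by positivity)
    rw [h3, div_mul_cancel₀ _ hb1.ne'] at h2
    have h4 : √(a / b) * b ≤ μ * a := by linarith
    have h5 : (√(a / b) * b) ^ 2 ≤ (μ * a) ^ 2 := pow_le_pow_left₀ (by positivity) h4 2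
    rw [mul_pow, h3, mul_pow] at h5
    have h6 : a / b * b ^ 2 = a * b := by field_simp
    rw [h6] at h5
    rcases ha0.eq_or_lt with ha1 | ha1
    · rw [← ha1] at h4
      have h7 : √(0 / b) = 0 := by simp
      have h8 := proj_le hQ hQQ (P *ᵥ f)
      rw [← ha, ← hb, ← ha1] at h8
      rw [← ha1]
      linarith
    · have h9 : a * b ≤ a * (μ ^ 2 * a) := by nlinarith
      exact le_of_mul_le_mul_left h9 ha1
  have kPQ := key P Q hP hPP hQ hQQ h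
  have kQP := key Q P hQ hQQ hP hPP (fun f g => by
    have := h g f
    rw [dotProduct_comm, add_comm]
    exact this)
  -- cyclicity of the trace
  have c1 : ∀ n, (Q * P * Q) ^ (n + 1) = Q * (P * Q) ^ (n + 1) := by
    intro n
    induction n with
    | zero => rw [zero_add, pow_one, pow_one, mul_assoc]
    | succ n ih =>
      rw [pow_succ, ih, pow_succ (P * Q) (n + 1), pow_succ (P * Q) n]
      calc Q * ((P * Q) ^ n * (P * Q)) * (Q * P * Q)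
          = Q * ((P * Q) ^ n * (P * (Q * Q) * P * Q)) := by noncomm_ring
        _ = Q * ((P * Q) ^ n * (P * Q) * (P * Q)) := by rw [hQQ]; noncomm_ring
  have c2 : ∀ n, (P * Q * P) ^ (n + 1) = (P * Q) ^ (n + 1) * P := by
    intro n
    induction n with
    | zero => rw [zero_add, pow_one, pow_one]
    | succ n ih =>
      rw [pow_succ, ih, pow_succ (P * Q) (n + 1)]
      calc (P * Q) ^ (n + 1) * P * (P * Q * P)
          = (P * Q) ^ (n + 1) * ((P * P) * Q * P) := by noncomm_ring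
        _ = (P * Q) ^ (n + 1) * (P * Q) * P := by rw [hPP]; noncomm_ring
  have c3 : ∀ n, (P * Q) ^ (n + 1) * Q = (P * Q) ^ (n + 1) := by
    intro n
    rw [pow_succ, mul_assoc, mul_assoc P Q Q, hQQ]
  have c4 : ∀ n, P * (P * Q) ^ (n + 1) = (P * Q) ^ (n + 1) := by
    intro n
    rw [pow_succ', ← mul_assoc, ← mul_assoc P P Q, hPP]
  have c5 : ((Q * P * Q) ^ (τ + 1)).trace = ((P * Q * P) ^ (τ + 1)).trace := by
    rw [c1, c2, Matrix.trace_mul_comm, c3, Matrix.trace_mul_comm, c4]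
  rw [c5]
  -- the norm of the powers
  set G := P * Q * P with hG
  have g1 : ∀ f, (G *ᵥ f) ⬝ᵥ (G *ᵥ f) ≤ μ ^ 4 * ((P *ᵥ f) ⬝ᵥ (P *ᵥ f)) := by
    intro f
    have e : G *ᵥ f = P *ᵥ (Q *ᵥ (P *ᵥ f)) := by
      rw [hG, Matrix.mulVec_mulVec, Matrix.mulVec_mulVec, mul_assoc]
    rw [e]
    have h1 := kQP (P *ᵥ f)
    have h2 := kPQ f
    calc _ ≤ μ ^ 2 * ((Q *ᵥ (P *ᵥ f)) ⬝ᵥ (Q *ᵥ (P *ᵥ f))) := h1
      _ ≤ μ ^ 2 * (μ ^ 2 * ((P *ᵥ f) ⬝ᵥ (P *ᵥ f))) :=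
        mul_le_mul_of_nonneg_left h2 (by positivity)
      _ = μ ^ 4 * ((P *ᵥ f) ⬝ᵥ (P *ᵥ f)) := by ring
  have hPG : P * G = G := by rw [hG, ← mul_assoc, ← mul_assoc, hPP]
  have hGP : ∀ n, P * G ^ (n + 1) = G ^ (n + 1) := by
    intro n
    rw [pow_succ', ← mul_assoc, hPG]
  have g2 : ∀ n f, (G ^ (n + 1) *ᵥ f) ⬝ᵥ (G ^ (n + 1) *ᵥ f) ≤
      (μ ^ 4) ^ (n + 1) * ((P *ᵥ f) ⬝ᵥ (P *ᵥ f)) := by
    intro n
    induction n with
    | zero => intro f; simpa using g1 f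
    | succ n ih =>
      intro f
      have e : G ^ (n + 1 + 1) *ᵥ f = G *ᵥ (G ^ (n + 1) *ᵥ f) := by
        rw [Matrix.mulVec_mulVec, ← pow_succ']
      rw [e]
      have h1 := g1 (G ^ (n + 1) *ᵥ f)
      have h2 : P *ᵥ (G ^ (n + 1) *ᵥ f) = G ^ (n + 1) *ᵥ f := by
        rw [Matrix.mulVec_mulVec, hGP]
      rw [h2] at h1
      calc _ ≤ μ ^ 4 * ((G ^ (n + 1) *ᵥ f) ⬝ᵥ (G ^ (n + 1) *ᵥ f)) := h1
        _ ≤ μ ^ 4 * ((μ ^ 4) ^ (n + 1) * ((P *ᵥ f) ⬝ᵥ (P *ᵥ f))) :=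
          mul_le_mul_of_nonneg_left (ih f) (by positivity)
        _ = (μ ^ 4) ^ (n + 1 + 1) * ((P *ᵥ f) ⬝ᵥ (P *ᵥ f)) := by ring
  have g3 : ∀ f, f ⬝ᵥ (G ^ (τ + 1) *ᵥ f) ≤ μ ^ (2 * (τ + 1)) * (f ⬝ᵥ (P *ᵥ f)) := by
    intro f
    have e : f ⬝ᵥ (G ^ (τ + 1) *ᵥ f) = (P *ᵥ f) ⬝ᵥ (G ^ (τ + 1) *ᵥ f) := by
      rw [dot_symm hP, Matrix.mulVec_mulVec, hGP]
    rw [e, ← dot_proj hP hPP]
    refine abs_le_of_sq_le_sq' ?_ (by have := dot_self_nonneg (P *ᵥ f); positivity) |>.2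
    calc _ ≤ ((P *ᵥ f) ⬝ᵥ (P *ᵥ f)) * ((G ^ (τ + 1) *ᵥ f) ⬝ᵥ (G ^ (τ + 1) *ᵥ f)) := dot_sq_le _ _
      _ ≤ ((P *ᵥ f) ⬝ᵥ (P *ᵥ f)) * ((μ ^ 4) ^ (τ + 1) * ((P *ᵥ f) ⬝ᵥ (P *ᵥ f))) :=
        mul_le_mul_of_nonneg_left (g2 τ f) (dot_self_nonneg _)
      _ = (μ ^ (2 * (τ + 1)) * ((P *ᵥ f) ⬝ᵥ (P *ᵥ f))) ^ 2 := by ring
  -- the trace
  have t1 : ∀ X : Matrix κ κ ℝ, X.trace = ∑ a, (Pi.single a 1) ⬝ᵥ (X *ᵥ (Pi.single a 1)) := by
    intro X
    rw [Matrix.trace]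
    refine sum_congr rfl fun a _ => ?_
    simp
  rw [t1, t1 P, mul_sum]
  exact sum_le_sum fun a _ => g3 _

end base

end Pool.Agent.Lib.P325y
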