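import Pool.Agent.Lib.P325y.Trace
import Pool.Agent.Lib.P325y.Spec
import Pool.Agent.Lib.P325x.Round

/-!
The walk on the label extended graph as a matrix on pairs (edge, label).
-/

open scoped BigOperators Matrix
open Finset

namespace Pool.Agent.Lib.P325y

open Pool.Agent.Lib.P325x

section lift

variable {ι Ω α : Type} [Fintype ι] [Fintype Ω]

theorem sum_lift [DecidableEq α] [DecidableEq Ω] (key : ι → α) (σ : ι → Equiv.Perm Ω)
    (p : ι × Ω) (F : ι × Ω → ℝ) :
    ∑ q with lift key σ q = lift key σ p, F q =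
      ∑ e with key e = key p.1, F (e, (σ e).symm (σ p.1 p.2)) := by
  refine sum_bij' (fun q _ => q.1) (fun e _ => (e, (σ e).symm (σ p.1 p.2))) ?_ ?_ ?_ ?_ ?_
  · intro q h
    simp only [mem_filter, lift, Prod.mk.injEq] at h
    simp [h.2.1]
  · intro e h
    simp only [mem_filter] at h
    simp [lift, h.2]
  · intro q h
    simp only [mem_filter, lift, Prod.mk.injEq] at h
    ext
    · rfl
    · simp [← h.2.2]
  · intro e he
    rfl
  · intro q h
    simp only [mem_filter, lift, Prod.mk.injEq] at h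
    rw [← h.2.2, Equiv.symm_apply_apply]

end lift

section game

variable {U W Ω ι : Type} [Fintype ι] [Fintype Ω] (I : Game U W Ω ι)

/-- averaging over the right vertex -/
noncomputable def QW : Matrix (ι × Ω) (ι × Ω) ℝ := av (lift I.dst (fun _ => (1 : Equiv.Perm Ω)))

/-- averaging over the left vertex -/
noncomputable def PU : Matrix (ι × Ω) (ι × Ω) ℝ := av (lift I.src (fun e => (I.perm e).symm))

/-- the walk from right to left to right -/
noncomputable def AA : Matrix (ι × Ω) (ι × Ω) ℝ := QW I * PU I * QW I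

/-- a function on the right vertices as a function on the edges -/
def LL (y : W → Ω → ℝ) (p : ι × Ω) : ℝ := y (I.dst p.1) p.2

theorem QW_LL (y : W → Ω → ℝ) : QW I *ᵥ LL I y = LL I y := by
  refine av_mulVec_eq fun a b h => ?_
  simp only [lift, Prod.mk.injEq, Equiv.Perm.coe_one, id] at h
  rw [LL, LL, h.1, h.2]

theorem LL_walk (y : W → Ω → ℝ) : LL I (I.walk y) = AA I *ᵥ LL I y := by
  classical
  have h1 : ∀ q, (PU I *ᵥ LL I y) q = I.toLeft y (I.src q.1) ((I.perm q.1).symm q.2) := by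
    intro q
    rw [PU, av_mulVec, sum_lift, cl_lift, cl, Game.toLeft]
    congr
  rw [AA, ← Matrix.mulVec_mulVec, ← Matrix.mulVec_mulVec, QW_LL]
  ext p
  rw [QW, av_mulVec, sum_lift, cl_lift, cl, LL, Game.walk, Game.toRight]
  simp only [h1]
  congr

theorem LL_sub (y z : W → Ω → ℝ) : LL I (y - z) = LL I y - LL I z := rfl

theorem LL_walk_iterate [DecidableEq ι] [DecidableEq Ω] (τ : ℕ) (y : W → Ω → ℝ) :
    LL I (I.walk^[τ] y) = AA I ^ τ *ᵥ LL I y := by
  induction τ generalizing y with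
  | zero => rw [pow_zero, Matrix.one_mulVec]; rfl
  | succ n ih =>
    rw [Function.iterate_succ_apply, ih, LL_walk, Matrix.mulVec_mulVec, ← pow_succ]

theorem LL_rest_iterate [DecidableEq ι] [DecidableEq Ω] (τ R : ℕ) (y : W → Ω → ℝ) :
    LL I ((fun z : W → Ω → ℝ => z - I.walk^[τ] z)^[R] y) = (1 - AA I ^ τ) ^ R *ᵥ LL I y := by
  induction R generalizing y with
  | zero => rw [pow_zero, Matrix.one_mulVec]; rfl
  | succ n ih =>
    rw [Function.iterate_succ_apply, ih, LL_sub, LL_walk_iterate, pow_succ,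
      ← Matrix.mulVec_mulVec, Matrix.sub_mulVec, Matrix.one_mulVec]

theorem LL_propagate [DecidableEq ι] [DecidableEq Ω] (τ R : ℕ) (y : W → Ω → ℝ) :
    LL I (I.propagate τ R y) = pm (AA I) τ R *ᵥ LL I y := by
  rw [Game.propagate, LL_sub, LL_rest_iterate, pm, Matrix.sub_mulVec, Matrix.one_mulVec]

/-- the right labelling `y` on the edge `e` -/
noncomputable def cc (y : W → Ω) (e : ι) : ι × Ω → ℝ := by
  classical
  exact Pi.single (e, y (I.dst e)) 1

theorem LL_seed {M : ℕ} (y : W → Ω) (S : Fin M → ι) :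
    LL I (I.seed fun i => (I.dst (S i), y (I.dst (S i)))) = QW I *ᵥ ∑ i, cc I y (S i) := by
  classical
  rw [Matrix.mulVec_sum]
  ext p
  rw [Finset.sum_apply, LL, Game.seed]
  refine sum_congr rfl fun i _ => ?_
  have h1 : (QW I *ᵥ cc I y (S i)) p = QW I p (S i, y (I.dst (S i))) := by
    rw [cc]
    simp
  rw [h1, QW, av_apply, cl_lift, cl]
  simp only [lift, Equiv.Perm.coe_one, id, one_div]
  congr

/-! ### the matrix `A` -/

theorem QW_t : (QW I)ᵀ = QW I := av_transpose _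
theorem PU_t : (PU I)ᵀ = PU I := av_transpose _
theorem QW_QW : QW I * QW I = QW I := av_mul_self _
theorem PU_PU : PU I * PU I = PU I := av_mul_self _

theorem AA_t : (AA I)ᵀ = AA I := by
  rw [AA, Matrix.transpose_mul, Matrix.transpose_mul, QW_t, PU_t, mul_assoc]

theorem AA_form (f : ι × Ω → ℝ) :
    f ⬝ᵥ (AA I *ᵥ f) = (PU I *ᵥ (QW I *ᵥ f)) ⬝ᵥ (PU I *ᵥ (QW I *ᵥ f)) := by
  rw [dot_proj (PU_t I) (PU_PU I), dot_symm (QW_t I), Matrix.mulVec_mulVec, Matrix.mulVec_mulVec,
    AA, mul_assoc]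

theorem AA_nonneg (f : ι × Ω → ℝ) : 0 ≤ f ⬝ᵥ (AA I *ᵥ f) := by
  rw [AA_form]
  exact dot_self_nonneg _

theorem AA_le (f : ι × Ω → ℝ) : f ⬝ᵥ (AA I *ᵥ f) ≤ f ⬝ᵥ f := by
  rw [AA_form]
  exact (proj_le (PU_t I) (PU_PU I) _).trans (proj_le (QW_t I) (QW_QW I) _)

theorem QW_AA : QW I * AA I = AA I := by
  rw [AA, ← mul_assoc, ← mul_assoc, QW_QW]

theorem AA_QW : AA I * QW I = AA I := by
  rw [AA, mul_assoc, QW_QW]

variable [DecidableEq ι] [DecidableEq Ω]

theorem AA_pow_QW (τ : ℕ) : AA I ^ (τ + 1) * QW I = AA I ^ (τ + 1) := by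
  rw [pow_succ, mul_assoc, AA_QW]

theorem QW_AA_pow (τ : ℕ) : QW I * AA I ^ (τ + 1) = AA I ^ (τ + 1) := by
  rw [pow_succ', ← mul_assoc, QW_AA]

theorem pm_QW (τ R : ℕ) : pm (AA I) (τ + 1) R * QW I = pm (AA I) (τ + 1) R := by
  induction R with
  | zero => rw [pm, pow_zero, sub_self, zero_mul]
  | succ n ih =>
    have h : pm (AA I) (τ + 1) (n + 1) =
        pm (AA I) (τ + 1) n + (1 - AA I ^ (τ + 1)) ^ n * AA I ^ (τ + 1) := by
      rw [pm, pm, pow_succ, mul_sub, mul_one]
      abel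
    rw [h, add_mul, ih, mul_assoc, AA_pow_QW]

theorem rest_QW (τ R : ℕ) {b : ι × Ω → ℝ} (hb : QW I *ᵥ b = b) :
    QW I *ᵥ ((1 - AA I ^ (τ + 1)) ^ R *ᵥ b) = (1 - AA I ^ (τ + 1)) ^ R *ᵥ b := by
  induction R with
  | zero => rw [pow_zero, Matrix.one_mulVec, hb]
  | succ n ih =>
    rw [pow_succ', ← Matrix.mulVec_mulVec, Matrix.sub_mulVec, Matrix.one_mulVec, Matrix.mulVec_sub,
      ih, Matrix.mulVec_mulVec, QW_AA_pow]

/-- The part of a right labelling that the propagation loses is nearly orthogonal to every left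
labelling. -/
theorem lost_le {t : ℝ} (ht0 : 0 < t) (ht1 : t ≤ 1) {τ R : ℕ}
    (hR : (1 / t) ^ (2 * (τ + 1)) * Real.log (1 / t) ≤ R) {a b : ι × Ω → ℝ}
    (ha : PU I *ᵥ a = a) (hb : QW I *ᵥ b = b) {m : ℝ} (ham : a ⬝ᵥ a = m) (hbm : b ⬝ᵥ b = m) :
    a ⬝ᵥ b - t * m ≤ a ⬝ᵥ (pm (AA I) (τ + 1) R *ᵥ b) := by
  set w := (1 - AA I ^ (τ + 1)) ^ R *ᵥ b with hw
  have h1 : pm (AA I) (τ + 1) R *ᵥ b = b - w := by
    rw [pm, Matrix.sub_mulVec, Matrix.one_mulVec]
  have h2 : (PU I *ᵥ w) ⬝ᵥ (PU I *ᵥ w) ≤ t ^ 2 * m := by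
    have h3 := rest_le (AA_t I) (AA_nonneg I) (AA_le I) ht0 ht1 hR b
    rw [← hw, AA_form, rest_QW I τ R hb, hbm] at h3
    exact h3
  have hm : 0 ≤ m := ham ▸ dot_self_nonneg a
  have h4 : a ⬝ᵥ w ≤ t * m := by
    rw [← ha, dot_symm (PU_t I)]
    calc a ⬝ᵥ (PU I *ᵥ w) ≤ √(a ⬝ᵥ a) * √((PU I *ᵥ w) ⬝ᵥ (PU I *ᵥ w)) := dot_le_sqrt _ _
      _ ≤ √m * √(t ^ 2 * m) := by
        rw [ham]
        exact mul_le_mul_of_nonneg_left (Real.sqrt_le_sqrt h2) (Real.sqrt_nonneg _)
      _ = t * m := by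
        rw [Real.sqrt_mul (by positivity), Real.sqrt_sq ht0.le]
        calc √m * (t * √m) = t * (√m * √m) := by ring
          _ = t * m := by rw [Real.mul_self_sqrt hm]
  rw [h1, dotProduct_sub]
  linarith

end game

section trace

variable {U W Ω ι : Type} [Fintype ι] [DecidableEq ι] (I : Game U W Ω ι)

/-- the trace of the powers of the walk on the graph of the game -/
theorem trace_base [Nonempty ι] {μ : ℝ} (hμ : 0 ≤ μ) (hI : I.SecondEigenvalueLE μ) (τ : ℕ) :
    ((av I.dst * av I.src * av I.dst) ^ (τ + 1)).trace ≤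
      1 + (Set.range I.src).ncard * μ ^ (2 * (τ + 1)) := by
  set J : Matrix ι ι ℝ := av (fun _ : ι => ()) with hJ
  set P := av I.src with hP
  set Q := av I.dst with hQ
  have hPJ : P * J = J := av_mul_of_coarse fun _ _ _ => rfl
  have hJP : J * P = J := av_mul_of_coarse' fun _ _ _ => rfl
  have hQJ : Q * J = J := av_mul_of_coarse fun _ _ _ => rfl
  have hJQ : J * Q = J := av_mul_of_coarse' fun _ _ _ => rfl
  have hJJ : J * J = J := av_mul_self _
  have hPP : P * P = P := av_mul_self _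
  have hQQ : Q * Q = Q := av_mul_self _
  have hPt : Pᵀ = P := av_transpose _
  have hQt : Qᵀ = Q := av_transpose _
  have hJt : Jᵀ = J := av_transpose _
  have h1 : (Q - J) * (P - J) * (Q - J) = Q * P * Q - J := by
    have e : (Q - J) * (P - J) = Q * P - J := by
      rw [sub_mul, mul_sub, mul_sub, hQJ, hJP, hJJ]; abel
    rw [e, sub_mul, mul_sub, mul_sub, mul_assoc Q P J, hPJ, hQJ, hJQ, hJJ]; abel
  have hAJ : ∀ n, (Q * P * Q) ^ n * J = J := by
    intro n
    induction n with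
    | zero => rw [pow_zero, one_mul]
    | succ n ih =>
      have e : Q * P * Q * J = J := by rw [mul_assoc (Q * P), hQJ, mul_assoc, hPJ, hQJ]
      rw [pow_succ, mul_assoc, e, ih]
  have h2 : ∀ n, (Q * P * Q - J) ^ (n + 1) = (Q * P * Q) ^ (n + 1) - J := by
    intro n
    induction n with
    | zero => rw [zero_add, pow_one, pow_one]
    | succ n ih =>
      rw [pow_succ, ih, sub_mul, mul_sub, mul_sub, hAJ, hJJ, ← pow_succ, ← mul_assoc, ← mul_assoc,
        hJQ, hJP, hJQ]
      abel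
  have hJtr : J.trace = 1 := by
    rw [hJ, trace_av]
    have : Set.range (fun _ : ι => ()) = {()} := by
      ext; simp
    rw [this, Set.ncard_singleton, Nat.cast_one]
  have h3 : ((Q * P * Q) ^ (τ + 1)).trace = (((Q - J) * (P - J) * (Q - J)) ^ (τ + 1)).trace + 1 := by
    rw [h1, h2, Matrix.trace_sub, hJtr]; ring
  have h4 := trace_pow_le (P := P - J) (Q := Q - J)
    (by rw [Matrix.transpose_sub, hPt, hJt])
    (by rw [sub_mul, mul_sub, mul_sub, hPJ, hJP, hPP, hJJ]; abel)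
    (by rw [Matrix.transpose_sub, hQt, hJt])
    (by rw [sub_mul, mul_sub, mul_sub, hQJ, hJQ, hQQ, hJJ]; abel) hμ (fun f g => by
      set F := (P - J) *ᵥ f with hF
      set G := (Q - J) *ᵥ g with hG
      have f1 : P *ᵥ F = F := by
        rw [hF, Matrix.mulVec_mulVec, mul_sub, hPP, hPJ]
      have g1 : Q *ᵥ G = G := by
        rw [hG, Matrix.mulVec_mulVec, mul_sub, hQQ, hQJ]
      have f2 : Function.FactorsThrough F I.src := by
        intro a b h
        rw [← f1]
        exact av_mulVec_congr F h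
      have g2 : Function.FactorsThrough G I.dst := by
        intro a b h
        rw [← g1]
        exact av_mulVec_congr G h
      have f3 : ∑ e, F e = 0 := by
        rw [hF, Matrix.sub_mulVec]
        simp only [Pi.sub_apply, sum_sub_distrib]
        rw [hP, hJ, sum_av_mulVec, sum_av_mulVec, sub_self]
      have g3 : ∑ e, G e = 0 := by
        rw [hG, Matrix.sub_mulVec]
        simp only [Pi.sub_apply, sum_sub_distrib]
        rw [hQ, hJ, sum_av_mulVec, sum_av_mulVec, sub_self]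
      have h5 := hI (Function.extend I.src F 0) (Function.extend I.dst G 0)
      simp only [f2.extend_apply, g2.extend_apply] at h5
      have h6 := h5 f3 g3
      simpa [dotProduct, sq] using h6) τ
  have h5 : (P - J).trace ≤ (Set.range I.src).ncard := by
    rw [Matrix.trace_sub, hJtr, hP, trace_av]
    linarith
  rw [h3]
  have h6 : μ ^ (2 * (τ + 1)) * (P - J).trace ≤ μ ^ (2 * (τ + 1)) * (Set.range I.src).ncard :=
    mul_le_mul_of_nonneg_left h5 (by positivity)
  linarith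

/-- the diagonal entries of the powers of the walk on the label extended graph, one label for each
edge: no dependence on the number of labels -/
theorem diag_AA [Fintype Ω] [DecidableEq Ω] [Nonempty ι] {μ : ℝ} (hμ : 0 ≤ μ)
    (hI : I.SecondEigenvalueLE μ) (τ : ℕ) (y : ι → Ω) :
    ∑ e, (AA I ^ (τ + 1)) (e, y e) (e, y e) ≤
      1 + (Set.range I.src).ncard * μ ^ (2 * (τ + 1)) := by
  have h1 : FS (AA I ^ (τ + 1)) ((av I.dst * av I.src * av I.dst) ^ (τ + 1)) :=
    (((fs_lift _ _).mul (fs_lift _ _)).mul (fs_lift _ _)).pow _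
  have h2 : ∀ a b, 0 ≤ AA I a b :=
    nonneg_mul (nonneg_mul (av_nonneg _) (av_nonneg _)) (av_nonneg _)
  refine le_trans ?_ (trace_base I hμ hI τ)
  rw [Matrix.trace]
  refine sum_le_sum fun e _ => ?_
  rw [Matrix.diag_apply, ← h1 (e, y e) e]
  exact single_le_sum (f := fun j => (AA I ^ (τ + 1)) (e, y e) (e, j))
    (fun j _ => nonneg_pow h2 _ _ _) (mem_univ (y e))

end trace

end Pool.Agent.Lib.P325y
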